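import Mathlib

namespace Pool.Agent.Results.MP_5e2b9f_al.NotPerfectlySupportable

universe v

/-- `S` has finite double centralizers. -/
def FiniteDoubleCentralizers (S : Type) [Semigroup S] : Prop :=
  ∀ F : Set S, F.Finite → (Set.centralizer (Set.centralizer F)).Finite

/-- `supp` is a support map on `S`. -/
def IsSupportMap {S : Type} [Semigroup S] {X : Type v} (supp : S → Set X) : Prop :=
  (∀ f g : S, supp (f * g) ⊆ supp f ∪ supp g) ∧
    ∀ f g : S, supp f ∩ supp g = ∅ → f * g = g * f

/-- The union of all supports. -/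
def allSupp {S : Type} {X : Type v} (supp : S → Set X) : Set X := ⋃ f : S, supp f

/-- The elements supported in `A`. -/
def supportedIn {S : Type} {X : Type v} (supp : S → Set X) (A : Set X) : Set S :=
  {f | supp f ⊆ A}

/-- The pair `(S, supp)` is supp-perfect. -/
def SuppPerfect {S : Type} [Semigroup S] {X : Type v} (supp : S → Set X) : Prop :=
  (∀ f : S, (supp f).Finite) ∧
    (∀ F : Set X, F ⊆ allSupp supp → F.Finite → (supportedIn supp F).Finite) ∧
    ∀ F : Set X, F ⊆ allSupp supp → F.Finite →
      supportedIn supp F = Set.centralizer (supportedIn supp (allSupp supp \ F))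

/-- `S` is perfectly supportable (with supports in sets of the universe `v`). -/
def PerfectlySupportable (S : Type) [Semigroup S] : Prop :=
  ∃ (X : Type v) (supp : S → Set X), IsSupportMap supp ∧ SuppPerfect supp

/-! ### The Heisenberg group -/

abbrev W : Type := ℕ →₀ ZMod 2
abbrev D : Type := W →ₗ[ZMod 2] ZMod 2

@[ext] structure H : Type where
  w : W
  d : D
  c : ZMod 2

noncomputable instance : Group H where
  mul x y := ⟨x.w + y.w, x.d + y.d, x.c + y.c + x.d y.w⟩
  one := ⟨0, 0, 0⟩
  inv x := ⟨-x.w, -x.d, -x.c + x.d x.w⟩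
  mul_assoc x y z := by
    ext1
    · exact add_assoc _ _ _
    · exact add_assoc _ _ _
    · show x.c + y.c + x.d y.w + z.c + (x.d + y.d) z.w = x.c + (y.c + z.c + y.d z.w) +
        x.d (y.w + z.w)
      rw [map_add, LinearMap.add_apply]; ring
  one_mul x := by
    ext1
    · exact zero_add _
    · exact zero_add _
    · show 0 + x.c + (0 : D) x.w = x.c
      rw [LinearMap.zero_apply]; ring
  mul_one x := by
    ext1
    · exact add_zero _
    · exact add_zero _
    · show x.c + 0 + x.d 0 = x.c
      rw [map_zero]; ring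
  inv_mul_cancel x := by
    ext1
    · exact neg_add_cancel _
    · exact neg_add_cancel _
    · show -x.c + x.d x.w + x.c + (-x.d) x.w = 0
      rw [LinearMap.neg_apply]; ring

theorem commute_iff (x y : H) : x * y = y * x ↔ x.d y.w = y.d x.w := by
  constructor
  · intro h
    have h1 := congrArg H.c h
    have h2 : x.c + y.c + x.d y.w = y.c + x.c + y.d x.w := h1
    rw [add_comm y.c x.c] at h2
    exact add_left_cancel h2
  · intro h
    ext1
    · exact add_comm _ _
    · exact add_comm _ _
    · show x.c + y.c + x.d y.w = y.c + x.c + y.d x.w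
      rw [h, add_comm x.c y.c]

/-- The symplectic form against `x`. -/
noncomputable def Om (x : H) : (W × D) →ₗ[ZMod 2] ZMod 2 :=
  x.d ∘ₗ LinearMap.fst (ZMod 2) W D - (LinearMap.applyₗ x.w) ∘ₗ LinearMap.snd (ZMod 2) W D

theorem Om_apply (x : H) (w : W) (d : D) : Om x (w, d) = x.d w - d x.w := rfl

theorem Om_inj (x y : H) (h : Om x = Om y) : x.w = y.w ∧ x.d = y.d := by
  constructor
  · ext n
    have := LinearMap.congr_fun h ((0 : W), (Finsupp.lapply n : D))
    rw [Om_apply, Om_apply, map_zero, map_zero, zero_sub, zero_sub, neg_inj] at this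
    simpa using this
  · ext1 n
    ext1
    have := LinearMap.congr_fun h ((Finsupp.single n 1 : W), (0 : D))
    rw [Om_apply, Om_apply] at this
    simpa using this

theorem finite_span (A : Set ((W × D) →ₗ[ZMod 2] ZMod 2)) (hA : A.Finite) :
    (Submodule.span (ZMod 2) A : Set ((W × D) →ₗ[ZMod 2] ZMod 2)).Finite := by
  have h1 : Module.Finite (ZMod 2) (Submodule.span (ZMod 2) A) := Module.Finite.span_of_finite _ hA
  have h2 : Finite (Submodule.span (ZMod 2) A) := Module.finite_of_finite (ZMod 2)
  exact Set.toFinite _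

theorem fdc : FiniteDoubleCentralizers H := by
  intro F hF
  have hfin : Finite F := hF
  set V := (Submodule.span (ZMod 2) (Set.range (fun f : F => Om f.1)) :
    Set ((W × D) →ₗ[ZMod 2] ZMod 2)) with hV
  have hVfin : V.Finite := finite_span _ (Set.finite_range _)
  have hsub : ∀ g ∈ Set.centralizer (Set.centralizer F), Om g ∈ V := by
    intro g hg
    apply mem_span_of_iInf_ker_le_ker
    rintro ⟨w, d⟩ he
    rw [Submodule.mem_iInf] at he
    rw [LinearMap.mem_ker, Om_apply]
    have hmem : (⟨w, d, 0⟩ : H) ∈ Set.centralizer F := by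
      intro f hf
      have h1 := he ⟨f, hf⟩
      rw [LinearMap.mem_ker, Om_apply] at h1
      rw [commute_iff]
      exact sub_eq_zero.mp h1
    have h2 := hg _ hmem
    rw [commute_iff] at h2
    rw [h2, sub_self]
  let K : H → ((W × D) →ₗ[ZMod 2] ZMod 2) × ZMod 2 := fun g => (Om g, g.c)
  have hK : Function.Injective K := by
    intro x y h
    have h1 := congrArg Prod.fst h
    have h2 := congrArg Prod.snd h
    obtain ⟨e1, e2⟩ := Om_inj x y h1
    exact H.ext e1 e2 h2
  refine Set.Finite.subset ((hVfin.prod (Set.finite_univ (α := ZMod 2))).preimage hK.injOn) ?_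
  intro g hg
  exact ⟨hsub g hg, Set.mem_univ _⟩

/-! ### The diagonal functional -/

section diag
variable (c : ℕ → ℕ → W) (p : ℕ → ℕ → ℕ)

noncomputable def bd (w : W) : ℕ := w.support.sup id + 1

noncomputable def st : ℕ → ℕ × D
  | 0 => (0, 0)
  | k + 1 => (max (bd (c k (st k).1)) (max ((st k).1 + 1) (p k (st k).1 + 1)),
      (st k).2 + (1 + (st k).2 (c k (st k).1)) • (Finsupp.lapply (p k (st k).1) : D))

theorem st_lt (k : ℕ) : (st c p k).1 < (st c p (k + 1)).1 := by
  show _ < max _ (max ((st c p k).1 + 1) _)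
  have := le_max_left ((st c p k).1 + 1) (p k (st c p k).1 + 1)
  have := le_max_right (bd (c k (st c p k).1)) (max ((st c p k).1 + 1) (p k (st c p k).1 + 1))
  omega

theorem st_mono : StrictMono (fun k => (st c p k).1) := strictMono_nat_of_lt_succ (st_lt c p)

theorem st_stable (hp : ∀ k N, N ≤ p k N) (k j : ℕ) (i : ℕ) (hi : i < (st c p k).1) :
    (st c p (k + j)).2 (Finsupp.single i 1) = (st c p k).2 (Finsupp.single i 1) := by
  induction j with
  | zero => rfl
  | succ j ih =>
    rw [← ih]
    show ((st c p (k + j)).2 + (1 + (st c p (k + j)).2 (c (k + j) (st c p (k + j)).1)) •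
      (Finsupp.lapply (p (k + j) (st c p (k + j)).1) : D)) (Finsupp.single i 1) = _
    have h1 : (st c p k).1 ≤ (st c p (k + j)).1 := (st_mono c p).monotone (Nat.le_add_right k j)
    have h2 := hp (k + j) (st c p (k + j)).1
    have h3 : (Finsupp.single i 1 : W) (p (k + j) (st c p (k + j)).1) = 0 := by
      rw [Finsupp.single_apply, if_neg]
      omega
    rw [LinearMap.add_apply, LinearMap.smul_apply]
    simp [h3]

/-- The limit functional. -/
noncomputable def lim : D :=
  Finsupp.linearCombination (ZMod 2) (fun i => (st c p (i + 1)).2 (Finsupp.single i 1))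

theorem lim_single (hp : ∀ k N, N ≤ p k N) (k i : ℕ) (hi : i < (st c p k).1) :
    lim c p (Finsupp.single i 1) = (st c p k).2 (Finsupp.single i 1) := by
  have h0 : lim c p (Finsupp.single i 1) = (st c p (i + 1)).2 (Finsupp.single i 1) := by
    rw [lim, Finsupp.linearCombination_single, one_smul]
  rw [h0]
  have h1 : i + 1 ≤ (st c p (i + 1)).1 := (st_mono c p).le_apply
  rcases le_total k (i + 1) with h | h
  · obtain ⟨j, hj⟩ := Nat.exists_eq_add_of_le h
    rw [hj]
    exact st_stable c p hp k j i hi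
  · obtain ⟨j, hj⟩ := Nat.exists_eq_add_of_le h
    rw [hj]
    exact (st_stable c p hp (i + 1) j i (by omega)).symm

theorem eq_of_agree (φ ψ : D) (w : W) (h : ∀ i ∈ w.support, φ (Finsupp.single i 1) =
    ψ (Finsupp.single i 1)) : φ w = ψ w := by
  have h1 : ∀ θ : D, θ w = w.sum (fun i a => a * θ (Finsupp.single i 1)) := by
    intro θ
    conv_lhs => rw [← Finsupp.sum_single w]
    rw [Finsupp.sum, map_sum, Finsupp.sum]
    apply Finset.sum_congr rfl
    intro i _
    have : (Finsupp.single i (w i) : W) = w i • Finsupp.single i 1 := by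
      rw [Finsupp.smul_single, smul_eq_mul, mul_one]
    rw [this, map_smul, smul_eq_mul]
  rw [h1, h1]
  apply Finset.sum_congr rfl
  intro i hi
  show w i * _ = w i * _
  rw [h i hi]

theorem lim_eq (hp : ∀ k N, N ≤ p k N) (hc : ∀ k N, c k N (p k N) ≠ 0) (k : ℕ) :
    lim c p (c k (st c p k).1) ≠ 0 := by
  set w := c k (st c p k).1 with hw
  have h1 : lim c p w = (st c p (k + 1)).2 w := by
    apply eq_of_agree
    intro i hi
    apply lim_single c p hp
    show i < max (bd w) _
    have : i ≤ w.support.sup id := Finset.le_sup (f := id) hi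
    have h2 : i < bd w := by rw [bd]; omega
    exact lt_of_lt_of_le h2 (le_max_left _ _)
  rw [h1]
  show ((st c p k).2 + (1 + (st c p k).2 w) • (Finsupp.lapply (p k (st c p k).1) : D)) w ≠ 0
  have h3 : w (p k (st c p k).1) = 1 := by
    have h4 := hc k (st c p k).1
    rw [← hw] at h4
    have h5 : ∀ a : ZMod 2, a ≠ 0 → a = 1 := by decide
    exact h5 _ h4
  rw [LinearMap.add_apply, LinearMap.smul_apply, Finsupp.lapply_apply, h3, smul_eq_mul, mul_one]
  generalize (st c p k).2 w = a
  revert a
  decide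

end diag

/-! ### No support map -/

theorem not_ps : ¬ PerfectlySupportable.{v} H := by
  rintro ⟨X, supp, ⟨-, hdisj⟩, hfin, hSfin, hScent⟩
  set XS := allSupp supp with hXS
  have hsub : ∀ g : H, supp g ⊆ XS := fun g => Set.subset_iUnion supp g
  -- the key property of finite sets
  have key : ∀ (R : Set X) (N : ℕ), R.Finite → R ⊆ XS →
      ∃ g : H, supp g ∩ R = ∅ ∧ ∃ m, N ≤ m ∧ g.w m ≠ 0 := by
    intro R N hR hRX
    by_contra hcon
    push Not at hcon
    have hmem : ∀ n : ℕ, (⟨0, Finsupp.lapply (N + n), 0⟩ : H) ∈ supportedIn supp R := by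
      intro n
      rw [hScent R hRX hR]
      intro g hg
      rw [commute_iff]
      show g.d 0 = g.w (N + n)
      rw [map_zero]
      have h1 : supp g ∩ R = ∅ := by
        ext x
        constructor
        · rintro ⟨h1, h2⟩
          exact absurd h2 (hg h1).2
        · intro h; exact absurd h (Set.notMem_empty _)
      exact (hcon g h1 (N + n) (Nat.le_add_right _ _)).symm
    have hinj : Function.Injective
        (fun n : ℕ => (⟨0, Finsupp.lapply (N + n), 0⟩ : H)) := by
      intro n m hnm
      have h1 : (Finsupp.lapply (N + n) : D) = Finsupp.lapply (N + m) := congrArg H.d hnm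
      by_contra hne
      have h2 := LinearMap.congr_fun h1 (Finsupp.single (N + n) 1)
      rw [Finsupp.lapply_apply, Finsupp.lapply_apply, Finsupp.single_eq_same,
        Finsupp.single_apply, if_neg (by omega)] at h2
      exact one_ne_zero h2
    exact Set.infinite_range_of_injective hinj
      ((hSfin R hRX hR).subset (by rintro _ ⟨n, rfl⟩; exact hmem n))
  classical
  choose! γ hγ1 m hγ2 hγ3 using key
  -- closing off
  let Y : ℕ → Set X := fun n => Nat.rec ∅
    (fun _ A => A ∪ ⋃ R ∈ {R : Set X | R.Finite ∧ R ⊆ A}, ⋃ N : ℕ, supp (γ R N)) n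
  have hY0 : Y 0 = ∅ := rfl
  have hYs : ∀ n, Y (n + 1) = Y n ∪ ⋃ R ∈ {R : Set X | R.Finite ∧ R ⊆ Y n}, ⋃ N : ℕ,
      supp (γ R N) := fun n => rfl
  have hYc : ∀ n, (Y n).Countable := by
    intro n
    induction n with
    | zero => rw [hY0]; exact Set.countable_empty
    | succ n ih =>
      rw [hYs]
      refine ih.union (Set.Countable.biUnion (Set.countable_setOf_finite_subset ih) ?_)
      intro R _
      exact Set.countable_iUnion (fun N => (hfin _).countable)
  have hYX : ∀ n, Y n ⊆ XS := by
    intro n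
    induction n with
    | zero => rw [hY0]; exact Set.empty_subset _
    | succ n ih =>
      rw [hYs]
      refine Set.union_subset ih ?_
      refine Set.iUnion₂_subset (fun R _ => Set.iUnion_subset (fun N => hsub _))
  have hYm : Monotone Y := by
    apply monotone_nat_of_le_succ
    intro n
    rw [hYs]
    exact Set.subset_union_left
  set Z : Set X := ⋃ n, Y n with hZ
  have hZc : Z.Countable := Set.countable_iUnion hYc
  have hZX : Z ⊆ XS := Set.iUnion_subset hYX
  have hZcl : ∀ R : Set X, R.Finite → R ⊆ Z → ∀ N, supp (γ R N) ⊆ Z := by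
    intro R hR hRZ N
    have hdir : ∃ n, R ⊆ Y n := by
      refine Set.Finite.induction_on_subset (motive := fun R' _ => ∃ n, R' ⊆ Y n) R hR
        ⟨0, Set.empty_subset _⟩ ?_
      intro a R' ha _ _ ⟨n, hn⟩
      obtain ⟨k, hk⟩ := Set.mem_iUnion.mp (hRZ ha)
      refine ⟨max n k, Set.insert_subset (hYm (le_max_right _ _) hk)
        (hn.trans (hYm (le_max_left _ _)))⟩
    obtain ⟨n, hn⟩ := hdir
    intro x hx
    refine Set.mem_iUnion.mpr ⟨n + 1, ?_⟩
    rw [hYs]
    exact Or.inr (Set.mem_biUnion (show R ∈ {R : Set X | R.Finite ∧ R ⊆ Y n} from ⟨hR, hn⟩)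
      (Set.mem_iUnion.mpr ⟨N, hx⟩))
  -- enumerate the finite subsets of `Z`
  obtain ⟨E, hE⟩ := (Set.countable_setOf_finite_subset hZc).exists_eq_range
    ⟨∅, Set.finite_empty, Set.empty_subset _⟩
  have hEprop : ∀ k, (E k).Finite ∧ E k ⊆ Z := by
    intro k
    have : E k ∈ {t : Set X | t.Finite ∧ t ⊆ Z} := by rw [hE]; exact ⟨k, rfl⟩
    exact this
  let c : ℕ → ℕ → W := fun k N => (γ (E k) N).w
  let p : ℕ → ℕ → ℕ := fun k N => m (E k) N
  have hp : ∀ k N, N ≤ p k N := fun k N =>
    hγ2 (E k) N (hEprop k).1 ((hEprop k).2.trans hZX)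
  have hc : ∀ k N, c k N (p k N) ≠ 0 := fun k N =>
    hγ3 (E k) N (hEprop k).1 ((hEprop k).2.trans hZX)
  -- the diagonal element
  let e : H := ⟨0, lim c p, 0⟩
  have hR0 : (supp e ∩ Z) ∈ {t : Set X | t.Finite ∧ t ⊆ Z} :=
    ⟨(hfin e).subset Set.inter_subset_left, Set.inter_subset_right⟩
  rw [hE] at hR0
  obtain ⟨k, hk⟩ := hR0
  have hne := lim_eq c p hp hc k
  set g := γ (E k) (st c p k).1 with hg
  have h1 : supp g ∩ E k = ∅ := hγ1 (E k) _ (hEprop k).1 ((hEprop k).2.trans hZX)
  have h2 : supp g ⊆ Z := hZcl (E k) (hEprop k).1 (hEprop k).2 _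
  have h3 : supp e ∩ supp g = ∅ := by
    ext x
    constructor
    · rintro ⟨hx1, hx2⟩
      have hx3 : x ∈ E k := by rw [hk]; exact ⟨hx1, h2 hx2⟩
      rw [← h1]
      exact ⟨hx2, hx3⟩
    · intro h; exact absurd h (Set.notMem_empty _)
  have h4 := hdisj e g h3
  rw [commute_iff] at h4
  apply hne
  have h5 : lim c p g.w = g.d 0 := h4
  rw [map_zero] at h5
  exact h5

theorem result : ∃ (G : Type) (_ : Group G), FiniteDoubleCentralizers G ∧
    ¬ PerfectlySupportable.{v} G :=
  ⟨H, inferInstance, fdc, not_ps⟩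

end Pool.Agent.Results.MP_5e2b9f_al.NotPerfectlySupportable
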